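import Pool.Agent.H34.ST.FinA

/-!
# [H2 OS DEFS] the star game on `K_n`: what each player can force

`Ed (Fin n)` is the set of the edges of `K_n`, a position assigns a status to every edge (`St.free`,
`St.one`, `St.two`), `gr q s` is the graph of the edges of status `s` and `starSize` is the maximum
degree.  `W T k b p`: Player 2 can force the final position to satisfy `T` from the position `p`, if
`k` moves are left and Player 1 is to move iff `b = true`.
-/

namespace Pool.Agent.H2.OS

open Pool.Agent.H34.ST

/-- Player 1 can force the final position to satisfy `T`; `k` moves are left, the flag is `true`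
if Player 1 is to move. -/
def W1 {E : Type*} [DecidableEq E] (T : (E → St) → Prop) : ℕ → Bool → (E → St) → Prop
  | 0, _, p => T p
  | k + 1, true, p => ∃ e, p e = St.free ∧ W1 T k false (Function.update p e St.one)
  | k + 1, false, p => ∀ e, p e = St.free → W1 T k true (Function.update p e St.two)

/-- in Star(n) (Player 1 moves first, from the empty position) Player 1 can force the final position
to satisfy `T` -/
def P1Forces (n : ℕ) (T : (Ed (Fin n) → St) → Prop) : Prop :=
  W1 T (Fintype.card (Ed (Fin n))) true (fun _ => St.free)

/-- in Star(n) (Player 1 moves first, from the empty position) Player 2 can force the final position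
to satisfy `T` -/
def P2Forces (n : ℕ) (T : (Ed (Fin n) → St) → Prop) : Prop :=
  W T (Fintype.card (Ed (Fin n))) true (fun _ => St.free)

/-- the two halves of a win of Player 2, at a common level `m`: he can force a star of size `m`, and
he can keep the stars of Player 1 at size at most `m` (not necessarily in the same play) -/
def Halves (n : ℕ) : Prop :=
  ∃ m, P2Forces n (fun q => m ≤ starSize (gr q St.two)) ∧
    P2Forces n (fun q => starSize (gr q St.one) ≤ m)

end Pool.Agent.H2.OS
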