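import Pool.Agent.H34.ST.Tempo
import Pool.Agent.H2.OS.Defs
import Pool.Agent.H34.ST.Swap

/-!
# [H2 OS ONE] what Player 1 can force

`W1 T k b p`: from `p` Player 1 can force the final position to satisfy `T`.
-/

namespace Pool.Agent.H2.OS

open Pool.Agent.H34.ST

section
variable {E : Type*} [DecidableEq E]

theorem W1_mono {T T' : (E → St) → Prop} (h : ∀ q, T q → T' q) :
    ∀ (k : ℕ) (b : Bool) (p : E → St), W1 T k b p → W1 T' k b p := by
  intro k
  induction k with
  | zero => intro b p; exact h p
  | succ k ih =>
    intro b p
    cases b with
    | false => intro hp e he; exact ih _ _ (hp e he)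
    | true => rintro ⟨e, he, hp⟩; exact ⟨e, he, ih _ _ hp⟩

/-- determinacy -/
theorem W1_or (T : (E → St) → Prop) :
    ∀ (k : ℕ) (b : Bool) (p : E → St), W1 T k b p ∨ W (fun q => ¬ T q) k b p := by
  intro k
  induction k with
  | zero => intro b p; exact em (T p)
  | succ k ih =>
    intro b p
    cases b with
    | true =>
      by_cases h : ∃ e, p e = St.free ∧ W1 T k false (Function.update p e St.one)
      · exact Or.inl h
      · right
        intro e he
        rcases ih false (Function.update p e St.one) with h1 | h1
        · exact absurd ⟨e, he, h1⟩ h
        · exact h1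
    | false =>
      by_cases h : ∃ e, p e = St.free ∧ W (fun q => ¬ T q) k true (Function.update p e St.two)
      · exact Or.inr h
      · left
        intro e he
        rcases ih true (Function.update p e St.two) with h1 | h1
        · exact h1
        · exact absurd ⟨e, he, h1⟩ h

/-- both players follow their strategies -/
theorem W1_and [Fintype E] {T T' : (E → St) → Prop} :
    ∀ (k : ℕ) (b : Bool) (p : E → St), fc p = k → W1 T k b p → W T' k b p → ∃ q, T q ∧ T' q := by
  intro k
  induction k with
  | zero => intro b p _ h1 h2; exact ⟨p, h1, h2⟩
  | succ k ih =>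
    intro b p hk h1 h2
    cases b with
    | true =>
      obtain ⟨e, he, h3⟩ := h1
      have hf := fc_update (s := St.one) he (by decide)
      exact ih _ _ (by omega) h3 (h2 e he)
    | false =>
      obtain ⟨e, he, h3⟩ := h2
      have hf := fc_update (s := St.two) he (by decide)
      exact ih _ _ (by omega) (h1 e he) h3

/-- exchange of the roles -/
theorem W1_swap {T : (E → St) → Prop} :
    ∀ (k : ℕ) (b : Bool) (p : E → St), W T k b p →
      W1 (fun q => T (fun e => sw (q e))) k (!b) (fun e => sw (p e)) := by
  intro k
  induction k with
  | zero =>
    intro b p hp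
    have h : (fun e => sw ((fun e => sw (p e)) e)) = p := by
      funext e
      exact swap_sw_sw _
    show T (fun e => sw ((fun e => sw (p e)) e))
    rw [h]
    exact hp
  | succ k ih =>
    intro b p hp
    cases b with
    | true =>
      intro e he
      have h3 := ih _ _ (hp e (swap_sw_free.1 he))
      rw [swap_sw_update] at h3
      exact h3
    | false =>
      obtain ⟨e, he, h2⟩ := hp
      refine ⟨e, swap_sw_free.2 he, ?_⟩
      have h3 := ih _ _ h2
      rw [swap_sw_update] at h3
      exact h3

/-- a property of all positions can be forced -/
theorem W_all [Fintype E] {T : (E → St) → Prop} (h : ∀ q, T q) :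
    ∀ (k : ℕ) (b : Bool) (p : E → St), fc p = k → W T k b p := by
  intro k
  induction k with
  | zero => intro b p _; exact h p
  | succ k ih =>
    intro b p hk
    cases b with
    | true =>
      intro e he
      have hf := fc_update (s := St.one) he (by decide)
      exact ih _ _ (by omega)
    | false =>
      have h1 : 0 < (Finset.univ.filter (fun e => p e = St.free)).card := by
        have : fc p = (Finset.univ.filter (fun e => p e = St.free)).card := rfl
        omega
      obtain ⟨e, he⟩ := Finset.card_pos.mp h1
      have he' : p e = St.free := (Finset.mem_filter.mp he).2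
      have hf := fc_update (s := St.two) he' (by decide)
      exact ⟨e, he', ih _ _ (by omega)⟩

end

end Pool.Agent.H2.OS
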