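import Pool.Agent.H2.OS.Pot
import Pool.Agent.H2.OS.One
import Pool.Agent.H34.ST.FinA

/-!
# [H2 OS CNT] the two one-sided values agree for almost all `n`

`mu n b`: the largest star which Player 2 can force on `K_n` (`b = true`: Player 1 moves first).
-/

namespace Pool.Agent.H2.OS

open Pool.Agent.H34.ST

theorem dg_le_star {n : ℕ} (q : Ed (Fin n) → St) (s : St) (v : Fin n) :
    dg q s v ≤ starSize (gr q s) := by
  classical
  have e1 : starSize (gr q s) = (gr q s).maxDegree := by
    unfold starSize; congr
  have d : (gr q s).degree v = dg q s v := by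
    rw [← gr_degree]
  rw [e1, ← d]
  exact SimpleGraph.degree_le_maxDegree _ _

theorem star_le {n : ℕ} (q : Ed (Fin n) → St) (s : St) (k : ℕ) (h : ∀ v, dg q s v ≤ k) :
    starSize (gr q s) ≤ k := by
  classical
  have e1 : starSize (gr q s) = (gr q s).maxDegree := by
    unfold starSize; congr
  rw [e1]
  apply SimpleGraph.maxDegree_le_of_forall_degree_le
  intro v
  have d : (gr q s).degree v = dg q s v := by
    rw [← gr_degree]
  rw [d]
  exact h v

theorem star_ex {n : ℕ} (hn : 1 ≤ n) (q : Ed (Fin n) → St) (s : St) :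
    ∃ v, starSize (gr q s) ≤ dg q s v := by
  by_contra hcon
  push Not at hcon
  have h0 : 0 < starSize (gr q s) := lt_of_le_of_lt (Nat.zero_le _) (hcon ⟨0, by omega⟩)
  have h1 := star_le q s (starSize (gr q s) - 1) (fun v => by have := hcon v; omega)
  omega

theorem start_sw {n : ℕ} : (fun _ : Ed (Fin n) => sw St.free) = fun _ => St.free := rfl

/-- the value of the game is at most one -/
theorem value_le (n : ℕ) :
    P2Forces n (fun q => starSize (gr q St.one) ≤ starSize (gr q St.two) + 1) := by
  refine W_mono ?_ _ _ _ (margin_one n)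
  intro q hq
  apply star_le
  intro v
  obtain ⟨u, hu⟩ := hq v
  have := dg_le_star q St.two u
  omega

/-- the value of the game is at least zero -/
theorem value_ge (n : ℕ) :
    P1Forces n (fun q => starSize (gr q St.two) ≤ starSize (gr q St.one)) := by
  rcases W1_or (fun q : Ed (Fin n) → St => starSize (gr q St.two) ≤ starSize (gr q St.one))
    (Fintype.card (Ed (Fin n))) true (fun _ => St.free) with h | h
  · exact h
  · exfalso
    have hn : 1 ≤ n := by
      by_contra hn0
      have : n = 0 := by omega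
      subst this
      obtain ⟨q, hq1, hq2⟩ := W1_and _ true _ (fc_free (V := Fin 0))
        (W1_swap _ false _ (W_all (T := fun _ : Ed (Fin 0) → St => True) (fun _ => trivial) _ false
          (fun _ => St.free) (fc_free (V := Fin 0)))) h
      apply hq2
      exact star_le q _ _ (fun v => v.elim0)
    have h1 : W (fun q : Ed (Fin n) → St => ∃ u, ∀ v, dg q St.one v + 1 ≤ dg q St.two u)
        (Fintype.card (Ed (Fin n))) true (fun _ => St.free) := by
      refine W_mono ?_ _ _ _ h
      intro q hq
      rw [not_le] at hq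
      obtain ⟨u, hu⟩ := star_ex hn q St.two
      exact ⟨u, fun v => by have := dg_le_star q St.one v; omega⟩
    have hM : Mono (fun q : Ed (Fin n) → St => ∃ u, ∀ v, dg q St.one v + 1 ≤ dg q St.two u) := by
      intro q q' hl hq
      obtain ⟨u, hu⟩ := hq
      refine ⟨u, fun v => ?_⟩
      have a1 := dg_one_anti hl v
      have a2 := dg_two_mono hl u
      have a3 := hu v
      omega
    have h2 := (extra_tempo hM _ _).1 (fc_free (V := Fin n)) h1
    have h3 := W1_swap _ false _ h2
    obtain ⟨q, ⟨u, hu⟩, hq2⟩ := W1_and _ true _ (fc_free (V := Fin n)) h3 h1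
    obtain ⟨v, hv⟩ := hq2
    have b1 := hu v
    have b2 := hv u
    rw [(kn_swd q v).1, (kn_swd q u).2] at b1
    omega

theorem as_zero (n : ℕ) (hn : 1 ≤ n) (b : Bool) : AS n b 0 :=
  W_all (fun _ => ⟨⟨0, by omega⟩, Nat.zero_le _⟩) _ _ _ fc_free

theorem as_anti {n : ℕ} {b : Bool} {k l : ℕ} (h : k ≤ l) (hl : AS n b l) : AS n b k :=
  W_mono (fun _ hq => by obtain ⟨v, hv⟩ := hq; exact ⟨v, h.trans hv⟩) _ _ _ hl

theorem as_tempo {n k : ℕ} (h : AS n true k) : AS n false k :=
  (extra_tempo (HasStar_mono k) _ _).1 fc_free h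

open Classical in
/-- the largest star that Player 2 can force -/
noncomputable def mu (n : ℕ) (b : Bool) : ℕ := Nat.findGreatest (AS n b) n

open Classical in
theorem mu_spec (n : ℕ) (hn : 1 ≤ n) (b : Bool) : AS n b (mu n b) :=
  Nat.findGreatest_spec (P := AS n b) (Nat.zero_le n) (as_zero n hn b)

open Classical in
theorem le_mu {n : ℕ} {b : Bool} {k : ℕ} (h : AS n b k) : k ≤ mu n b :=
  Nat.le_findGreatest (by have := as_le n b k h; omega) h

theorem halves_of_eq (n : ℕ) (hn : 1 ≤ n) (h : mu n false ≤ mu n true) : Halves n := by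
  refine ⟨mu n true, ?_, ?_⟩
  · refine W_mono ?_ _ _ _ (mu_spec n hn true)
    intro q hq
    obtain ⟨v, hv⟩ := hq
    exact hv.trans (dg_le_star q St.two v)
  · by_contra hcon
    have h1 := W_swap _ true _ hcon
    have h2 : AS n false (mu n true + 1) := by
      refine W_mono ?_ _ _ _ h1
      intro q hq
      by_contra hno
      apply hq
      apply star_le
      intro v
      rw [(kn_swd q v).1]
      by_contra hlt
      exact hno ⟨v, by omega⟩
    have := le_mu h2
    omega

theorem mu_step (n : ℕ) (hn : 1 ≤ n) : mu n false + 1 ≤ mu (n + 2) true :=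
  le_mu (step n _ (mu_spec n hn false))

theorem mu_tempo (n : ℕ) (hn : 1 ≤ n) : mu n true ≤ mu n false :=
  le_mu (as_tempo (mu_spec n hn true))

theorem mu_gap (n : ℕ) (hn : 1 ≤ n) (h : ¬ Halves n) : mu n true + 1 ≤ mu n false := by
  by_contra hcon
  exact h (halves_of_eq n hn (by omega))

open Classical in
/-- the number of exceptions up to `N` is bounded by the growth of the one-sided value -/
theorem count_le (N : ℕ) :
    ((Finset.Icc 1 N).filter (fun n => ¬ Halves n)).card + N ≤
      mu (N + 1) true + mu (N + 2) true := by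
  induction N with
  | zero => simp
  | succ N ih =>
    have h1 := mu_step (N + 1) (by omega)
    have h2 := mu_tempo (N + 1) (by omega)
    have h3 : (Finset.Icc 1 (N + 1)).filter (fun n => ¬ Halves n) =
        if Halves (N + 1) then (Finset.Icc 1 N).filter (fun n => ¬ Halves n)
        else insert (N + 1) ((Finset.Icc 1 N).filter (fun n => ¬ Halves n)) := by
      split_ifs with hH
      · ext m
        simp only [Finset.mem_filter, Finset.mem_Icc]
        constructor
        · rintro ⟨⟨a, b⟩, c⟩
          refine ⟨⟨a, ?_⟩, c⟩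
          rcases Nat.lt_or_ge m (N + 1) with hlt | hge
          · omega
          · exfalso
            have : m = N + 1 := by omega
            exact c (this ▸ hH)
        · rintro ⟨⟨a, b⟩, c⟩
          exact ⟨⟨a, by omega⟩, c⟩
      · ext m
        simp only [Finset.mem_filter, Finset.mem_Icc, Finset.mem_insert]
        constructor
        · rintro ⟨⟨a, b⟩, c⟩
          rcases Nat.lt_or_ge m (N + 1) with hlt | hge
          · exact Or.inr ⟨⟨a, by omega⟩, c⟩
          · exact Or.inl (by omega)
        · rintro (rfl | ⟨⟨a, b⟩, c⟩)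
          · exact ⟨⟨by omega, le_refl _⟩, hH⟩
          · exact ⟨⟨a, by omega⟩, c⟩
    rw [h3]
    split_ifs with hH
    · have e1 : N + 1 + 2 = N + 3 := rfl
      have e2 : N + 1 + 1 = N + 2 := rfl
      rw [e1] at h1 ⊢
      rw [e2]
      omega
    · have h4 := mu_gap (N + 1) (by omega) hH
      rw [Finset.card_insert_of_notMem (by
        rw [Finset.mem_filter, Finset.mem_Icc]
        rintro ⟨⟨_, h⟩, _⟩
        omega)]
      have e1 : N + 1 + 2 = N + 3 := rfl
      have e2 : N + 1 + 1 = N + 2 := rfl
      rw [e1] at h1 ⊢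
      rw [e2]
      omega

theorem mu_bound (n : ℕ) (hn : 1 ≤ n) : 2 * (mu n true : ℝ) ≤ (n - 1) + 5 / 2 * Sq n := by
  have h := as_bound n _ (as_tempo (mu_spec n hn true))
  linarith

open Classical in
theorem count_real (N : ℕ) :
    (((Finset.Icc 1 N).filter (fun n => ¬ Halves n)).card : ℝ) ≤
      5 / 2 * Real.sqrt ((N + 2) * Real.log (N + 4)) + 1 / 2 := by
  have h1 : ((((Finset.Icc 1 N).filter (fun n => ¬ Halves n)).card + N : ℕ) : ℝ) ≤
      ((mu (N + 1) true + mu (N + 2) true : ℕ) : ℝ) := by
    exact_mod_cast count_le N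
  push_cast at h1
  have h2 := mu_bound (N + 1) (by omega)
  have h3 := mu_bound (N + 2) (by omega)
  have h4 := Sq_mono (Nat.le_succ (N + 1))
  have h5 : Sq (N + 2) = Real.sqrt ((N + 2) * Real.log (N + 4)) := by
    unfold Sq
    push_cast
    ring_nf
  have h6 : Sq (Nat.succ (N + 1)) = Sq (N + 2) := rfl
  rw [h6] at h4
  rw [← h5]
  push_cast at h2 h3
  linarith

/-- Player 1 cannot separate the two maximum degrees by a fixed threshold -/
theorem no_threshold (n : ℕ) (h : Halves n) (k : ℕ) :
    ¬ P1Forces n (fun q => starSize (gr q St.two) < k ∧ k ≤ starSize (gr q St.one)) := by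
  intro hP
  obtain ⟨m, h1, h2⟩ := h
  rcases Nat.lt_or_ge m k with hlt | hge
  · obtain ⟨q, ⟨_, a⟩, b⟩ := W1_and _ true _ (fc_free (V := Fin n)) hP h2
    omega
  · obtain ⟨q, ⟨a, _⟩, b⟩ := W1_and _ true _ (fc_free (V := Fin n)) hP h1
    omega

end Pool.Agent.H2.OS
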