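import Pool.Agent.H34.ST.Tempo
import Pool.Agent.H34.ST.Swap
import Pool.Agent.H34.ST.Kn

/-!
# [H2 OS FLIP] a tempo is worth at most one flipped edge

`W_flip`: if Player 2 can force `T` from `p`, then from the position in which one element of
Player 2 is given to Player 1 he can force everything that follows from `T` after this flip.
`W_tempo_loss`: if Player 2, moving first, can force `T`, then moving second he can force everything
that follows from `T` after one flip.
-/

namespace Pool.Agent.H2.OS

open Pool.Agent.H34.ST

section
variable {E : Type*} [DecidableEq E]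

theorem W_flip {T T' : (E → St) → Prop} (e0 : E)
    (h : ∀ q, q e0 = St.two → T q → T' (Function.update q e0 St.one)) :
    ∀ (k : ℕ) (b : Bool) (p : E → St), p e0 = St.two → W T k b p →
      W T' k b (Function.update p e0 St.one) := by
  intro k
  induction k with
  | zero => intro b p hp hW; exact h p hp hW
  | succ k ih =>
    intro b p hp hW
    cases b with
    | true =>
      intro e he
      have hne : e ≠ e0 := by
        rintro rfl
        simp at he
      rw [Function.update_of_ne hne] at he
      rw [Function.update_comm (Ne.symm hne)]
      refine ih _ _ ?_ (hW e he)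
      rw [Function.update_of_ne (Ne.symm hne)]
      exact hp
    | false =>
      obtain ⟨e, he, hW⟩ := hW
      have hne : e ≠ e0 := by
        rintro rfl
        rw [hp] at he
        exact absurd he (by decide)
      refine ⟨e, ?_, ?_⟩
      · rw [Function.update_of_ne hne]
        exact he
      · rw [Function.update_comm (Ne.symm hne)]
        refine ih _ _ ?_ hW
        rw [Function.update_of_ne (Ne.symm hne)]
        exact hp

theorem W_tempo_loss [Fintype E] {T T' : (E → St) → Prop} (hT : Mono T)
    (h0 : ∀ q, T q → T' q)
    (h : ∀ e0 q, q e0 = St.two → T q → T' (Function.update q e0 St.one)) :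
    ∀ (k : ℕ) (p : E → St), fc p = k → W T k false p → W T' k true p := by
  intro k
  induction k using Nat.strong_induction_on with
  | _ k ih =>
    intro p hk hW
    rcases k with _ | k
    · exact h0 p hW
    · obtain ⟨e, he, hW⟩ := hW
      have hf := fc_update (s := St.two) he (by decide)
      intro a ha
      by_cases hae : a = e
      · subst hae
        have h1 : fc (Function.update p a St.two) = k := by omega
        have h2 := (extra_tempo hT k (Function.update p a St.two)).1 h1 hW
        have h3 := W_flip (T := T) (T' := T') a (h a) k false _ (by simp) h2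
        rw [Function.update_idem] at h3
        exact h3
      · have ha' : Function.update p e St.two a = St.free := by
          rw [Function.update_of_ne hae]
          exact ha
        rcases k with _ | k
        · exfalso
          have h1 : 0 < fc (Function.update p e St.two) :=
            Finset.card_pos.mpr ⟨a, by simp only [Finset.mem_filter, Finset.mem_univ, true_and]; exact ha'⟩
          omega
        · have h1 := hW a ha'
          have hf2 := fc_update (s := St.one) ha' (by decide)
          have h2 := ih k (by omega) _ (by omega) h1
          refine ⟨e, ?_, ?_⟩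
          · rw [Function.update_of_ne (Ne.symm hae)]
            exact he
          · rw [Function.update_comm (Ne.symm hae)] at h2
            exact h2

end

section
variable {V : Type*} [Fintype V] [DecidableEq V]

/-- the degrees after one change -/
theorem dg_upd (q : Ed V → St) (e : Ed V) (s0 s1 s : St) (he : q e = s0) (v : V) :
    dg (Function.update q e s1) s v + (if v ∈ e.1 ∧ s0 = s then 1 else 0) =
      dg q s v + (if v ∈ e.1 ∧ s1 = s then 1 else 0) := by
  unfold dg
  rw [Finset.card_filter, Finset.card_filter,
    ← Finset.add_sum_erase Finset.univ _ (Finset.mem_univ e),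
    ← Finset.add_sum_erase Finset.univ (fun x : Ed V => if v ∈ x.1 ∧ q x = s then 1 else 0)
      (Finset.mem_univ e)]
  have h : ∑ x ∈ Finset.univ.erase e, (if v ∈ x.1 ∧ Function.update q e s1 x = s then 1 else 0) =
      ∑ x ∈ Finset.univ.erase e, (if v ∈ x.1 ∧ q x = s then 1 else 0) := by
    apply Finset.sum_congr rfl
    intro x hx
    rw [Function.update_of_ne (Finset.ne_of_mem_erase hx)]
  rw [h, Function.update_self, he]
  omega

/-- Player 2 is ahead by two -/
def S2 (q : Ed V → St) : Prop := ∃ u, ∀ v, dg q St.one v + 2 ≤ dg q St.two u

/-- the maximum degree of Player 1 is at most the one of Player 2 plus one -/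
def TS1 (q : Ed V → St) : Prop := ∀ v, ∃ u, dg q St.one v ≤ dg q St.two u + 1

theorem S2_mono : Mono (S2 (V := V)) := by
  intro q q' h hq
  obtain ⟨u, hu⟩ := hq
  refine ⟨u, fun v => ?_⟩
  have h1 := dg_one_anti h v
  have h2 := dg_two_mono h u
  have h3 := hu v
  omega

theorem S2_TS (q : Ed V → St) (h : S2 q) : TS q := by
  obtain ⟨u, hu⟩ := h
  intro v
  exact ⟨u, by have := hu v; omega⟩

theorem S2_flip (e0 : Ed V) (q : Ed V → St) (he : q e0 = St.two) (h : S2 q) :
    TS (Function.update q e0 St.one) := by
  obtain ⟨u, hu⟩ := h
  intro v
  refine ⟨u, ?_⟩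
  have h1 := dg_upd q e0 St.two St.one St.one he v
  have h2 := dg_upd q e0 St.two St.one St.two he u
  have h3 := hu v
  have h4 : ¬ (v ∈ e0.1 ∧ St.two = St.one) := fun h => absurd h.2 (by decide)
  have h5 : ¬ (u ∈ e0.1 ∧ St.one = St.two) := fun h => absurd h.2 (by decide)
  rw [if_neg h4] at h1
  rw [if_neg h5] at h2
  split_ifs at h1 h2 <;> omega

end

/-- Player 2 can force that Player 1 is at most one ahead -/
theorem margin_one (n : ℕ) :
    W (TS1 (V := Fin n)) (Fintype.card (Ed (Fin n))) true (fun _ => St.free) := by
  by_contra hcon
  have h1 := W_swap _ true _ hcon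
  have h2 : W (S2 (V := Fin n)) (Fintype.card (Ed (Fin n))) false (fun _ => St.free) := by
    refine W_mono ?_ _ _ _ h1
    intro q hq
    unfold TS1 at hq
    push Not at hq
    obtain ⟨v, hv⟩ := hq
    refine ⟨v, fun u => ?_⟩
    have := hv u
    rw [(kn_swd q v).1, (kn_swd q u).2] at this
    omega
  have h3 := W_tempo_loss (T := S2 (V := Fin n)) (T' := TS (V := Fin n)) S2_mono S2_TS
    (fun e0 q he hq => S2_flip e0 q he hq) _ _ fc_free h2
  apply hcon
  refine W_mono ?_ _ _ _ h3
  intro q hq v
  obtain ⟨u, hu⟩ := hq v
  exact ⟨u, by omega⟩

end Pool.Agent.H2.OS
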