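import Pool.Agent.H34.ST.Red
import Pool.Agent.H34.ST.SumG
import Pool.Agent.H34.ST.Blocks
import Pool.Agent.H34.ST.Kn

/-!
# [H2 OS STEP] two extra vertices: a move is worth a half step

`step`: if Player 2, moving first on `K_n`, can force a star of size `k`, then moving second on
`K_{n+2}` he can force a star of size `k + 1`: the first edge of Player 1 is taken as the edge between
the two extra vertices, and the two edges from a vertex of `K_n` to them are paired.
-/

namespace Pool.Agent.H2.OS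

open Pool.Agent.H34.ST

/-- Player 2 has a star of size `k` -/
def HasStar {V : Type*} [Fintype V] [DecidableEq V] (k : ℕ) (q : Ed V → St) : Prop :=
  ∃ v, k ≤ dg q St.two v

theorem HasStar_mono {V : Type*} [Fintype V] [DecidableEq V] (k : ℕ) :
    Mono (HasStar (V := V) k) := by
  intro q q' h hq
  obtain ⟨v, hv⟩ := hq
  exact ⟨v, hv.trans (dg_two_mono h v)⟩

theorem HasStar_edEquiv {V V' : Type*} [Fintype V] [DecidableEq V] [Fintype V'] [DecidableEq V']
    (k : ℕ) (g : V ≃ V') (q : Ed V' → St) (h : HasStar k q) :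
    HasStar k (fun e => q (edEquiv g e)) := by
  obtain ⟨v, hv⟩ := h
  refine ⟨g.symm v, ?_⟩
  rw [dg_edEquiv, Equiv.apply_symm_apply]
  exact hv

/-- Player 2 can force a star of size `k` on `K_n` (`b`: Player 1 moves first) -/
def AS (n : ℕ) (b : Bool) (k : ℕ) : Prop :=
  W (HasStar (V := Fin n) k) (Fintype.card (Ed (Fin n))) b (fun _ => St.free)

/-- the edge of `K_2` -/
def e01 : Ed (Fin 2) := ⟨s(0, 1), by simp⟩

/-- every extra part: one of the two edges -/
def Ext1 (n : ℕ) (q : (Fin n × Fin 2) ⊕ Ed (Fin 2) → St) : Prop :=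
  ∀ c : Fin n, ∃ b : Fin 2, q (Sum.inl (c, b)) = St.two

theorem Ext1_mono (n : ℕ) : Mono (Ext1 n) := by
  intro q q' h hq c
  obtain ⟨b, hb⟩ := hq c
  refine ⟨b, ?_⟩
  rcases h (Sum.inl (c, b)) with h1 | ⟨h1, h2⟩
  · rw [← h1]; exact hb
  · exact h2

/-- the block of an element of the extra part -/
def blk1 (n : ℕ) : (Fin n × Fin 2) ⊕ Ed (Fin 2) → Option (Fin n)
  | Sum.inl x => some x.1
  | Sum.inr _ => none

theorem ext_two (n : ℕ) (p : (Fin n × Fin 2) ⊕ Ed (Fin 2) → St)
    (hp : ∀ c b, p (Sum.inl (c, b)) = St.free) : W (Ext1 n) (fc p) true p := by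
  classical
  have h1 := W_blocks (blk1 n) (fun j => if j = none then 0 else 1) (fc p) p rfl (by
    intro j
    cases j with
    | none => simp
    | some c =>
      have h2 : 2 ≤ (Finset.univ.filter (fun e => blk1 n e = some c ∧ p e = St.free)).card := by
        have h3 : ({Sum.inl (c, 0), Sum.inl (c, 1)} : Finset ((Fin n × Fin 2) ⊕ Ed (Fin 2))) ⊆
            Finset.univ.filter (fun e => blk1 n e = some c ∧ p e = St.free) := by
          intro e he
          rw [Finset.mem_insert, Finset.mem_singleton] at he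
          rw [Finset.mem_filter]
          rcases he with rfl | rfl
          · exact ⟨Finset.mem_univ _, rfl, hp c 0⟩
          · exact ⟨Finset.mem_univ _, rfl, hp c 1⟩
        have h4 := Finset.card_le_card h3
        rw [Finset.card_pair (by simp)] at h4
        exact h4
      simp only [reduceCtorEq, if_false]
      omega)
  refine W_mono ?_ _ _ _ h1
  intro q hq c
  have h2 := hq (some c)
  simp only [reduceCtorEq, if_false] at h2
  obtain ⟨e, he⟩ := Finset.card_pos.1 (lt_of_lt_of_le Nat.zero_lt_one h2)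
  rw [Finset.mem_filter] at he
  rcases e with ⟨c', b⟩ | e
  · have h3 : c' = c := Option.some.inj he.2.1
    subst h3
    exact ⟨b, he.2.2⟩
  · exact absurd he.2.1 (by simp [blk1])

theorem final1 (n k : ℕ) (q₁ : Ed (Fin n) → St) (q₂ : (Fin n × Fin 2) ⊕ Ed (Fin 2) → St)
    (h₁ : HasStar k q₁) (h₂ : Ext1 n q₂) :
    HasStar (V := Fin n ⊕ Fin 2) (k + 1) (fun e => Sum.elim q₁ q₂ (dec.symm e)) := by
  obtain ⟨v, hv⟩ := h₁
  obtain ⟨b, hb⟩ := h₂ v
  refine ⟨Sum.inl v, ?_⟩
  rw [dg_dec_inl]
  simp only [Equiv.symm_apply_apply, Sum.elim_inl, Sum.elim_inr]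
  have h1 : 1 ≤ (Finset.univ.filter (fun b : Fin 2 => q₂ (Sum.inl (v, b)) = St.two)).card :=
    Finset.card_pos.2 ⟨b, by rw [Finset.mem_filter]; exact ⟨Finset.mem_univ _, hb⟩⟩
  exact Nat.add_le_add hv h1

/-- the first edge of Player 1 may be taken as the edge between the two extra vertices -/
theorem reduce2 (n k : ℕ)
    (h : W (HasStar (V := Fin n ⊕ Fin 2) k) (Fintype.card (Ed (Fin n ⊕ Fin 2)) - 1) false
      (Function.update (fun _ => St.free) (dec (Sum.inr (Sum.inr e01))) St.one)) :
    AS (n + 2) true k := by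
  unfold AS
  have hcard : Fintype.card (Ed (Fin (n + 2))) = Fintype.card (Ed (Fin n ⊕ Fin 2)) :=
    card_Ed_congr finSumFinEquiv.symm
  have hpos : 0 < Fintype.card (Ed (Fin n ⊕ Fin 2)) :=
    Fintype.card_pos_iff.2 ⟨dec (Sum.inr (Sum.inr e01))⟩
  obtain ⟨m, hm⟩ : ∃ m, Fintype.card (Ed (Fin n ⊕ Fin 2)) = m + 1 :=
    ⟨Fintype.card (Ed (Fin n ⊕ Fin 2)) - 1, by omega⟩
  rw [hcard, hm]
  rw [hm, Nat.add_sub_cancel] at h
  intro e _
  obtain ⟨e, he⟩ := e
  induction e using Sym2.ind with
  | _ x y =>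
    have hxy : x ≠ y := by simpa using he
    obtain ⟨g1, hg1, hg1'⟩ := fix_one (finSumFinEquiv.symm : Fin (n + 2) ≃ Fin n ⊕ Fin 2) y
      (Sum.inr 1)
    obtain ⟨g, hg, hg'⟩ := fix_one g1 x (Sum.inr 0)
    have hgy : g y = Sum.inr 1 := by
      rw [hg' y (Ne.symm hxy) (by rw [hg1]; simp), hg1]
    have hed : edEquiv g ⟨s(x, y), he⟩ = dec (Sum.inr (Sum.inr e01)) := by
      apply Subtype.ext
      show Sym2.map g s(x, y) = s(Sum.inr 0, Sum.inr 1)
      rw [Sym2.map_mk, hg, hgy]
    have h1 := W_transfer (edEquiv g) (T := HasStar (V := Fin (n + 2)) k)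
      (T' := HasStar (V := Fin n ⊕ Fin 2) k)
      (fun q hq => HasStar_edEquiv k g q hq) m false _ h
    have h2 : (fun e => Function.update (fun _ : Ed (Fin n ⊕ Fin 2) => St.free)
        (dec (Sum.inr (Sum.inr e01))) St.one (edEquiv g e)) =
        Function.update (fun _ => St.free) (⟨s(x, y), he⟩ : Ed (Fin (n + 2))) St.one := by
      funext e
      rw [← hed]
      by_cases hh : e = ⟨s(x, y), he⟩
      · rw [hh, Function.update_self, Function.update_self]
      · rw [Function.update_of_ne hh, Function.update_of_ne]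
        intro h3
        exact hh ((edEquiv g).injective h3)
    rw [h2] at h1
    exact h1

theorem step (n k : ℕ) (h : AS n false k) : AS (n + 2) true (k + 1) := by
  apply reduce2
  unfold AS at h
  rw [← fc_free] at h
  have hfree : ∀ (c : Fin n) (b : Fin 2), Function.update
      (fun _ : (Fin n × Fin 2) ⊕ Ed (Fin 2) => St.free) (Sum.inr e01) St.one (Sum.inl (c, b)) =
      St.free := by
    intro c b
    rw [Function.update_of_ne (by simp)]
  have h2 := ext_two n _ hfree
  have hfc := fc_update (p := fun _ : (Fin n × Fin 2) ⊕ Ed (Fin 2) => St.free)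
    (e := Sum.inr e01) (s := St.one) rfl (by decide)
  have hfc2 : fc (fun _ : (Fin n × Fin 2) ⊕ Ed (Fin 2) => St.free) =
      Fintype.card ((Fin n × Fin 2) ⊕ Ed (Fin 2)) := by
    simp [fc]
  have hcard : Fintype.card (Ed (Fin n ⊕ Fin 2)) - 1 =
      fc (fun _ : Ed (Fin n) => St.free) +
      fc (Function.update (fun _ : (Fin n × Fin 2) ⊕ Ed (Fin 2) => St.free)
        (Sum.inr e01) St.one) := by
    have e1 : Fintype.card (Ed (Fin n ⊕ Fin 2)) =
        Fintype.card (Ed (Fin n) ⊕ ((Fin n × Fin 2) ⊕ Ed (Fin 2))) :=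
      (Fintype.card_congr dec).symm
    rw [e1, Fintype.card_sum, fc_free, ← hfc2, ← hfc]
    omega
  have h3 := (W_sum (T := fun q => HasStar (V := Fin n ⊕ Fin 2) (k + 1)
      (fun e => q (dec.symm e)))
    (HasStar_mono k) (Ext1_mono n) (final1 n k) _ _ _ hcard.symm).2.1 h h2
  have h4 := W_transfer (dec (C := Fin n) (B := Fin 2)).symm
    (T := HasStar (V := Fin n ⊕ Fin 2) (k + 1)) (fun q hq => hq) _ _ _ h3
  have h5 : (fun e => Sum.elim (fun _ : Ed (Fin n) => St.free)
      (Function.update (fun _ : (Fin n × Fin 2) ⊕ Ed (Fin 2) => St.free)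
        (Sum.inr e01) St.one) ((dec (C := Fin n) (B := Fin 2)).symm e)) =
      Function.update (fun _ : Ed (Fin n ⊕ Fin 2) => St.free)
        (dec (Sum.inr (Sum.inr e01))) St.one := by
    funext e
    obtain ⟨y, rfl⟩ := (dec (C := Fin n) (B := Fin 2)).surjective e
    rw [Equiv.symm_apply_apply]
    rcases y with y | y
    · rw [Sum.elim_inl, Function.update_of_ne]
      intro hc
      exact absurd ((dec (C := Fin n) (B := Fin 2)).injective hc) (by simp)
    · rw [Sum.elim_inr]
      by_cases hy : y = Sum.inr e01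
      · rw [hy, Function.update_self, Function.update_self]
      · rw [Function.update_of_ne hy, Function.update_of_ne]
        intro hc
        exact hy (Sum.inr.inj ((dec (C := Fin n) (B := Fin 2)).injective hc))
  rw [h5] at h4
  exact h4

end Pool.Agent.H2.OS
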