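import Pool.Agent.H2.OS.Flip
import Pool.Agent.H2.OS.Step
import Pool.Agent.H34.ST.BDeg

/-!
# [H2 OS POT] the potential bound for the degree game

`Ph lam q = ∑ v, (1 + lam) ^ (degree of v for Player 2) * (1 - lam) ^ (degree for Player 1)`.
Player 1, on move, takes the free edge whose two ends have the largest sum of summands; then the
potential does not increase in a round.  `as_bound`: a star of size `k` forced by Player 2 moving
first on `K_n` has `2 k - (n - 1) ≤ 5/2 √(n log (n + 2))`.
-/

namespace Pool.Agent.H2.OS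

open Pool.Agent.H34.ST

section
variable {V : Type*} [Fintype V] [DecidableEq V]

/-- the weight of a vertex -/
noncomputable def ph (lam : ℝ) (q : Ed V → St) (v : V) : ℝ :=
  (1 + lam) ^ (dg q St.two v) * (1 - lam) ^ (dg q St.one v)

/-- the potential -/
noncomputable def Ph (lam : ℝ) (q : Ed V → St) : ℝ := ∑ v, ph lam q v

/-- the weight of an edge -/
noncomputable def wt (lam : ℝ) (q : Ed V → St) (e : Ed V) : ℝ :=
  ∑ v, if v ∈ e.1 then ph lam q v else 0

theorem ph_nonneg {lam : ℝ} (h0 : 0 ≤ lam) (h1 : lam ≤ 1) (q : Ed V → St) (v : V) :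
    0 ≤ ph lam q v :=
  mul_nonneg (pow_nonneg (by linarith) _) (pow_nonneg (by linarith) _)

theorem wt_nonneg {lam : ℝ} (h0 : 0 ≤ lam) (h1 : lam ≤ 1) (q : Ed V → St) (e : Ed V) :
    0 ≤ wt lam q e := by
  apply Finset.sum_nonneg
  intro v _
  split_ifs
  · exact ph_nonneg h0 h1 q v
  · exact le_refl _

theorem ph_one (lam : ℝ) (q : Ed V → St) (e : Ed V) (he : q e = St.free) (v : V) :
    ph lam (Function.update q e St.one) v = ph lam q v - lam * (if v ∈ e.1 then ph lam q v else 0) := by
  have h1 := dg_upd q e St.free St.one St.one he v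
  have h2 := dg_upd q e St.free St.one St.two he v
  unfold ph
  by_cases hv : v ∈ e.1
  · simp only [hv, true_and, reduceCtorEq, if_true, if_false, Nat.add_zero] at h1 h2 ⊢
    rw [h1, h2, pow_succ]
    ring
  · simp only [hv, false_and, if_false, Nat.add_zero] at h1 h2 ⊢
    rw [h1, h2]
    ring

theorem ph_two (lam : ℝ) (q : Ed V → St) (e : Ed V) (he : q e = St.free) (v : V) :
    ph lam (Function.update q e St.two) v = ph lam q v + lam * (if v ∈ e.1 then ph lam q v else 0) := by
  have h1 := dg_upd q e St.free St.two St.one he v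
  have h2 := dg_upd q e St.free St.two St.two he v
  unfold ph
  by_cases hv : v ∈ e.1
  · simp only [hv, true_and, reduceCtorEq, if_true, if_false, Nat.add_zero] at h1 h2 ⊢
    rw [h1, h2, pow_succ]
    ring
  · simp only [hv, false_and, if_false, Nat.add_zero] at h1 h2 ⊢
    rw [h1, h2]
    ring

theorem Ph_one (lam : ℝ) (q : Ed V → St) (e : Ed V) (he : q e = St.free) :
    Ph lam (Function.update q e St.one) = Ph lam q - lam * wt lam q e := by
  unfold Ph wt
  rw [Finset.mul_sum, ← Finset.sum_sub_distrib]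
  exact Finset.sum_congr rfl (fun v _ => ph_one lam q e he v)

theorem Ph_two (lam : ℝ) (q : Ed V → St) (e : Ed V) (he : q e = St.free) :
    Ph lam (Function.update q e St.two) = Ph lam q + lam * wt lam q e := by
  unfold Ph wt
  rw [Finset.mul_sum, ← Finset.sum_add_distrib]
  exact Finset.sum_congr rfl (fun v _ => ph_two lam q e he v)

theorem wt_one {lam : ℝ} (h0 : 0 ≤ lam) (h1 : lam ≤ 1) (q : Ed V → St) (e : Ed V)
    (he : q e = St.free) (f : Ed V) : wt lam (Function.update q e St.one) f ≤ wt lam q f := by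
  apply Finset.sum_le_sum
  intro v _
  split_ifs with hf
  · rw [ph_one lam q e he v]
    have h2 := ph_nonneg h0 h1 q v
    split_ifs
    · nlinarith [mul_nonneg h0 h2]
    · simp
  · exact le_refl _

/-- against the potential strategy of Player 1 some final position which is good for Player 2 has
a small potential -/
theorem pot_main {lam : ℝ} (h0 : 0 ≤ lam) (h1 : lam ≤ 1) {T : (Ed V → St) → Prop} :
    ∀ (k : ℕ) (p : Ed V → St), fc p = k → W T k true p →
      ∃ q, T q ∧ (∀ e, q e ≠ St.free) ∧ Ph lam q ≤ Ph lam p := by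
  have hfull : ∀ p : Ed V → St, fc p = 0 → ∀ e, p e ≠ St.free := by
    intro p hp e he
    have h2 : 0 < fc p := Finset.card_pos.mpr ⟨e, by simp [he]⟩
    omega
  intro k
  induction k using Nat.strong_induction_on with
  | _ k ih =>
    intro p hk hW
    rcases k with _ | k
    · exact ⟨p, hW, hfull p hk, le_refl _⟩
    · have hne : (Finset.univ.filter (fun e => p e = St.free)).Nonempty :=
        Finset.card_pos.1 (by unfold fc at hk; omega)
      obtain ⟨e, he, hmax⟩ := Finset.exists_max_image _ (wt lam p) hne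
      rw [Finset.mem_filter] at he
      have he' := he.2
      have hf1 := fc_update (s := St.one) he' (by decide)
      have hP1 := Ph_one lam p e he'
      have h2 := hW e he'
      rcases k with _ | k
      · refine ⟨_, h2, hfull _ (by omega), ?_⟩
        rw [hP1]
        have := mul_nonneg h0 (wt_nonneg h0 h1 p e)
        linarith
      · obtain ⟨f, hf, h3⟩ := h2
        have hf2 := fc_update (s := St.two) hf (by decide)
        obtain ⟨q, hq1, hq2, hq3⟩ := ih k (by omega) _ (by omega) h3
        refine ⟨q, hq1, hq2, hq3.trans ?_⟩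
        rw [Ph_two lam _ f hf, hP1]
        have hfe : f ≠ e := by
          rintro rfl
          simp at hf
        have hf' : p f = St.free := by
          rwa [Function.update_of_ne hfe] at hf
        have h4 := hmax f (by rw [Finset.mem_filter]; exact ⟨Finset.mem_univ _, hf'⟩)
        have h5 := wt_one h0 h1 p e he' f
        have h6 := mul_le_mul_of_nonneg_left (h5.trans h4) h0
        linarith

theorem ends_two (e : Ed V) : (Finset.univ.filter (fun v : V => v ∈ e.1)).card = 2 := by
  obtain ⟨e, hd⟩ := e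
  induction e using Sym2.ind with
  | _ x y =>
    have hxy : x ≠ y := by
      intro h
      exact hd (by simp [h])
    have : (Finset.univ.filter (fun v : V => v ∈ s(x, y))) = {x, y} := by
      ext v
      simp
    simp only
    rw [this, Finset.card_pair hxy]

theorem dg_start (s : St) (hs : s ≠ St.free) (v : V) :
    dg (fun _ : Ed V => St.free) s v = 0 := by
  unfold dg
  rw [Finset.card_eq_zero, Finset.filter_eq_empty_iff]
  rintro e _ ⟨_, h⟩
  exact hs h.symm

theorem Ph_start (lam : ℝ) : Ph lam (fun _ : Ed V => St.free) = Fintype.card V := by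
  unfold Ph ph
  simp [dg_start]

theorem wt_start (lam : ℝ) (e : Ed V) : wt lam (fun _ : Ed V => St.free) e = 2 := by
  unfold wt ph
  simp only [dg_start St.two (by decide), dg_start St.one (by decide), pow_zero, mul_one]
  rw [← Finset.sum_filter, Finset.sum_const, ends_two]
  simp

/-- the potential of some good final position, Player 2 moving first from the empty board -/
theorem pot_first {lam : ℝ} (h0 : 0 ≤ lam) (h1 : lam ≤ 1) {T : (Ed V → St) → Prop} (b : Bool)
    (h : W T (Fintype.card (Ed V)) b (fun _ => St.free)) :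
    ∃ q, T q ∧ (∀ e, q e ≠ St.free) ∧ Ph lam q ≤ Fintype.card V + 2 * lam := by
  obtain ⟨k, hk⟩ : ∃ k, k = Fintype.card (Ed V) := ⟨_, rfl⟩
  have hfc := fc_free (V := V)
  rw [← hk] at h hfc
  cases b with
  | true =>
    obtain ⟨q, h2, h3, h4⟩ := pot_main h0 h1 k _ hfc h
    refine ⟨q, h2, h3, h4.trans ?_⟩
    rw [Ph_start]
    linarith
  | false =>
    rcases k with _ | k
    · obtain ⟨q, h2, h3, h4⟩ := pot_main h0 h1 0 _ hfc h
      refine ⟨q, h2, h3, h4.trans ?_⟩
      rw [Ph_start]
      linarith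
    · obtain ⟨e, he, h⟩ := h
      have hf := fc_update (p := fun _ : Ed V => St.free) (e := e) (s := St.two) he (by decide)
      obtain ⟨q, h2, h3, h4⟩ := pot_main h0 h1 k _ (by omega) h
      refine ⟨q, h2, h3, h4.trans ?_⟩
      rw [Ph_two lam _ e he, Ph_start, wt_start]
      linarith

end

/-- a star of Player 2 has at most `n - 1` edges -/
theorem as_le (n : ℕ) (b : Bool) (k : ℕ) (h : AS n b k) : k + 1 ≤ n := by
  obtain ⟨q, ⟨v, hv⟩, hq, -⟩ := pot_first (lam := 0) (le_refl _) (by norm_num) b h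
  have := dg_add hq v
  rw [Fintype.card_fin] at this
  omega

theorem as_pow {lam : ℝ} (h0 : 0 ≤ lam) (h1 : lam ≤ 1) (n k : ℕ) (h : AS n false k) :
    (1 + lam) ^ k * (1 - lam) ^ (n - 1 - k) ≤ n + 2 * lam := by
  obtain ⟨q, ⟨v, hv⟩, hq, hP⟩ := pot_first h0 h1 false h
  have hadd := dg_add hq v
  rw [Fintype.card_fin] at hadd hP
  refine le_trans ?_ hP
  have h2 : ph lam q v ≤ Ph lam q :=
    Finset.single_le_sum (f := fun v => ph lam q v) (fun v _ => ph_nonneg h0 h1 q v)
      (Finset.mem_univ v)
  refine le_trans ?_ h2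
  unfold ph
  apply mul_le_mul
  · exact pow_le_pow_right₀ (by linarith) hv
  · exact pow_le_pow_of_le_one (by linarith) (by linarith) (by omega)
  · exact pow_nonneg (by linarith) _
  · exact pow_nonneg (by linarith) _

theorem as_log {lam : ℝ} (h0 : 0 ≤ lam) (h1 : lam ≤ 1 / 2) (n k : ℕ) (h : AS n false k) :
    (2 * (k : ℝ) - (n - 1)) * lam ≤ Real.log (n + 2) + 3 / 2 * n * lam ^ 2 := by
  have hk := as_le n false k h
  have h2 := as_pow h0 (by linarith) n k h
  obtain ⟨m, hm⟩ : ∃ m, n = m + k + 1 := ⟨n - 1 - k, by omega⟩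
  have hm' : n - 1 - k = m := by omega
  rw [hm'] at h2
  have hp1 : 0 < 1 + lam := by linarith
  have hp2 : 0 < 1 - lam := by linarith
  have h3 : Real.log ((1 + lam) ^ k * (1 - lam) ^ m) ≤ Real.log (n + 2) := by
    apply Real.log_le_log (by positivity)
    linarith
  rw [Real.log_mul (by positivity) (by positivity), Real.log_pow, Real.log_pow] at h3
  have h4 : lam - lam ^ 2 ≤ Real.log (1 + lam) := by
    have h5 := Real.one_sub_inv_le_log_of_pos hp1
    refine le_trans ?_ h5
    rw [le_sub_iff_add_le, ← le_sub_iff_add_le', inv_le_iff_one_le_mul₀ hp1]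
    nlinarith [mul_nonneg h0 (mul_nonneg h0 h0)]
  have h6 : -lam - 2 * lam ^ 2 ≤ Real.log (1 - lam) := by
    have h5 := Real.one_sub_inv_le_log_of_pos hp2
    refine le_trans ?_ h5
    rw [le_sub_iff_add_le, ← le_sub_iff_add_le', inv_le_iff_one_le_mul₀ hp2]
    nlinarith [mul_nonneg (mul_nonneg h0 h0) (sub_nonneg.2 h1)]
  have h7 := mul_le_mul_of_nonneg_left h4 (Nat.cast_nonneg (α := ℝ) k)
  have h8 := mul_le_mul_of_nonneg_left h6 (Nat.cast_nonneg (α := ℝ) m)
  have hn : (n : ℝ) = m + k + 1 := by rw [hm]; push_cast; ring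
  have hL : 0 ≤ Real.log (n + 2) := Real.log_nonneg (by have := Nat.cast_nonneg (α := ℝ) n; linarith)
  have hkr : (0 : ℝ) ≤ k := Nat.cast_nonneg _
  have hmr : (0 : ℝ) ≤ m := Nat.cast_nonneg _
  by_cases hkm : (m : ℝ) ≤ k
  · rw [hn] at h3 ⊢
    nlinarith [mul_nonneg (sub_nonneg.2 hkm) (sq_nonneg lam), sq_nonneg lam]
  · rw [not_le] at hkm
    have h9 : (2 * (k : ℝ) - (n - 1)) * lam ≤ 0 := by
      apply mul_nonpos_of_nonpos_of_nonneg _ h0
      rw [hn]
      linarith
    have h10 : 0 ≤ 3 / 2 * n * lam ^ 2 := by positivity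
    linarith

/-- the bound `√(n log (n + 2))` -/
noncomputable def Sq (n : ℕ) : ℝ := Real.sqrt (n * Real.log (n + 2))

theorem as_bound (n k : ℕ) (h : AS n false k) : 2 * (k : ℝ) - (n - 1) ≤ 5 / 2 * Sq n := by
  have hk := as_le n false k h
  have hn0 : (1 : ℝ) ≤ n := by
    have : 1 ≤ n := by omega
    exact_mod_cast this
  have hL : 0 < Real.log (n + 2) := Real.log_pos (by linarith)
  have hkr : (k : ℝ) + 1 ≤ n := by exact_mod_cast hk
  obtain ⟨lam, hlam⟩ : ∃ lam, lam = Real.sqrt (Real.log (n + 2) / n) := ⟨_, rfl⟩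
  have hlam0 : 0 < lam := by
    rw [hlam]
    exact Real.sqrt_pos.2 (by positivity)
  have hsq : lam ^ 2 * n = Real.log (n + 2) := by
    rw [hlam, Real.sq_sqrt (by positivity)]
    field_simp
  have hS : Sq n = lam * n := by
    unfold Sq
    rw [← hsq]
    have : (n : ℝ) * (lam ^ 2 * n) = (lam * n) ^ 2 := by ring
    rw [this, Real.sqrt_sq (by positivity)]
  by_cases hl : lam ≤ 1 / 2
  · have h2 := as_log hlam0.le hl n k h
    rw [← hsq] at h2
    rw [hS]
    have h3 : (2 * (k : ℝ) - (n - 1)) * lam ≤ (5 / 2 * (lam * n)) * lam := by nlinarith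
    exact le_of_mul_le_mul_right h3 hlam0
  · rw [not_le] at hl
    rw [hS]
    nlinarith

theorem Sq_mono {m n : ℕ} (h : m ≤ n) : Sq m ≤ Sq n := by
  unfold Sq
  have h1 : (m : ℝ) ≤ n := by exact_mod_cast h
  have h0 : (0 : ℝ) ≤ m := Nat.cast_nonneg _
  apply Real.sqrt_le_sqrt
  apply mul_le_mul h1 _ (Real.log_nonneg (by linarith)) (by linarith)
  exact Real.log_le_log (by linarith) (by linarith)

end Pool.Agent.H2.OS
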